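import Mathlib

set_option autoImplicit false

/-!
# A smooth vector field of the plane with orthogonal Jacobian columns and a limit cycle

Let `τ` be the smooth step function (`0` on `(-∞, 0]`, `1` on `[1, ∞)`). Let `a` be smooth, `-1` for `x ≤ -1` and `1` for
`x ≥ 1`; let `b` be smooth, `0` on `[-1, 1]`, `1` for `y ≥ 2` and `-1` for `y ≤ -2`; let `λ ≥ 0` be a smooth bump with
support `[-1/2, 1/2]`; let `θ` be smooth, `-π` for `x ≤ -2`, `-π/2` on `[-1, 1]` and `x - 6` for `x ≥ 2`. The field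

  `X = (-b(y), a(x)) + λ(y) (-sin θ(x), cos θ(x))`

has orthogonal Jacobian columns: the first part is Hamiltonian with the Hamiltonian `W = A(x) + B(y) - 5`, the second part
lives in the strip `|y| < 1/2`, where `b = 0`, and its direction is `(1, 0)` where `a' ≠ 0`. In the region `|W| < 1` the
field turns around the origin, and `W` is conserved except in the right part of the strip, where `W = x - 6` and
`W' = -λ(y) sin(x - 6)`. So `|W|` decreases at each revolution, and the orbit through `(6, 0)` is the only closed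
orbit in the region `|W| < 1`.
-/

namespace Pool.Agent.Results.MP_3ec6ac_an.SmoothLimitCycle

open scoped ContDiff Topology NNReal
open Set Filter

/-- The partial derivative with respect to `x`. -/
noncomputable def dx (f : ℝ × ℝ → ℝ) (p : ℝ × ℝ) : ℝ := deriv (fun s => f (s, p.2)) p.1

/-- The partial derivative with respect to `y`. -/
noncomputable def dy (f : ℝ × ℝ → ℝ) (p : ℝ × ℝ) : ℝ := deriv (fun s => f (p.1, s)) p.2

/-- The vector field `P ∂x + Q ∂y` has orthogonal Jacobian columns. -/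
def OrthogonalColumns (P Q : ℝ × ℝ → ℝ) : Prop := ∀ p : ℝ × ℝ, dx P p * dy P p + dx Q p * dy Q p = 0

/-- `γ` is a solution of `x' = P`, `y' = Q`. -/
def IsSolution (P Q : ℝ × ℝ → ℝ) (γ : ℝ → ℝ × ℝ) : Prop := ∀ t : ℝ, HasDerivAt γ (P (γ t), Q (γ t)) t

/-- `C` is a periodic orbit (equilibria are included here). -/
def PeriodicOrbit (P Q : ℝ × ℝ → ℝ) (C : Set (ℝ × ℝ)) : Prop :=
  ∃ (γ : ℝ → ℝ × ℝ) (T : ℝ), 0 < T ∧ IsSolution P Q γ ∧ (∀ t, γ (t + T) = γ t) ∧ C = range γ

/-- `C` is a limit cycle: a periodic orbit with at least two points, and some neighbourhood of `C` contains no other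
periodic orbit (and no equilibrium). -/
def LimitCycle (P Q : ℝ × ℝ → ℝ) (C : Set (ℝ × ℝ)) : Prop :=
  PeriodicOrbit P Q C ∧ C.Nontrivial ∧ ∃ U : Set (ℝ × ℝ), IsOpen U ∧ C ⊆ U ∧
    ∀ C' : Set (ℝ × ℝ), PeriodicOrbit P Q C' → C' ⊆ U → C' = C

/-! ### the field -/

noncomputable def τ (x : ℝ) : ℝ := Real.smoothTransition x

theorem τ0 {x : ℝ} (hx : x ≤ 0) : τ x = 0 := Real.smoothTransition.zero_of_nonpos hx

theorem τ1 {x : ℝ} (hx : 1 ≤ x) : τ x = 1 := Real.smoothTransition.one_of_one_le hx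

theorem τ_nonneg (x : ℝ) : 0 ≤ τ x := Real.smoothTransition.nonneg x

theorem τ_le (x : ℝ) : τ x ≤ 1 := Real.smoothTransition.le_one x

theorem τ_cd : ContDiff ℝ ∞ τ := Real.smoothTransition.contDiff

noncomputable def a (x : ℝ) : ℝ := 2 * τ ((x + 1) / 2) - 1

noncomputable def b (y : ℝ) : ℝ := τ (y - 1) - τ (-y - 1)

noncomputable def l (y : ℝ) : ℝ := τ (1 - 4 * y ^ 2) / 4

noncomputable def th (x : ℝ) : ℝ := -Real.pi + Real.pi / 2 * τ (x + 2) + τ (x - 1) * (x - 6 + Real.pi / 2)

noncomputable def P (p : ℝ × ℝ) : ℝ := -b p.2 - l p.2 * Real.sin (th p.1)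

noncomputable def Q (p : ℝ × ℝ) : ℝ := a p.1 + l p.2 * Real.cos (th p.1)

theorem a_cd : ContDiff ℝ ∞ a := by
  unfold a
  exact (contDiff_const.mul (τ_cd.comp ((contDiff_id.add contDiff_const).div_const _))).sub contDiff_const

theorem b_cd : ContDiff ℝ ∞ b := by
  unfold b
  exact (τ_cd.comp (contDiff_id.sub contDiff_const)).sub (τ_cd.comp (contDiff_id.neg.sub contDiff_const))

theorem l_cd : ContDiff ℝ ∞ l := by
  unfold l
  exact (τ_cd.comp (contDiff_const.sub (contDiff_const.mul (contDiff_id.pow 2)))).div_const _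

theorem th_cd : ContDiff ℝ ∞ th := by
  unfold th
  exact (contDiff_const.add (contDiff_const.mul (τ_cd.comp (contDiff_id.add contDiff_const)))).add
    ((τ_cd.comp (contDiff_id.sub contDiff_const)).mul ((contDiff_id.sub contDiff_const).add contDiff_const))

theorem P_cd : ContDiff ℝ ∞ P := by
  unfold P
  exact ((b_cd.comp contDiff_snd).neg).sub ((l_cd.comp contDiff_snd).mul (Real.contDiff_sin.comp (th_cd.comp contDiff_fst)))

theorem Q_cd : ContDiff ℝ ∞ Q := by
  unfold Q
  exact (a_cd.comp contDiff_fst).add ((l_cd.comp contDiff_snd).mul (Real.contDiff_cos.comp (th_cd.comp contDiff_fst)))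

theorem a_left {x : ℝ} (hx : x ≤ -1) : a x = -1 := by
  unfold a; rw [τ0 (by linarith)]; norm_num

theorem a_right {x : ℝ} (hx : 1 ≤ x) : a x = 1 := by
  unfold a; rw [τ1 (by linarith)]; norm_num

theorem a_abs (x : ℝ) : |a x| ≤ 1 := by
  unfold a
  rw [abs_le]
  have h1 := τ_nonneg ((x + 1) / 2)
  have h2 := τ_le ((x + 1) / 2)
  constructor <;> linarith

theorem b_mid {y : ℝ} (h1 : -1 ≤ y) (h2 : y ≤ 1) : b y = 0 := by
  unfold b; rw [τ0 (by linarith), τ0 (by linarith)]; norm_num

theorem b_up {y : ℝ} (h1 : 2 ≤ y) : b y = 1 := by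
  unfold b; rw [τ1 (by linarith), τ0 (by linarith)]; norm_num

theorem b_dn {y : ℝ} (h1 : y ≤ -2) : b y = -1 := by
  unfold b; rw [τ0 (by linarith), τ1 (by linarith)]; norm_num

theorem b_pos {y : ℝ} (h1 : 0 ≤ y) : 0 ≤ b y := by
  unfold b
  rw [τ0 (x := -y - 1) (by linarith)]
  have := τ_nonneg (y - 1)
  linarith

theorem b_neg {y : ℝ} (h1 : y ≤ 0) : b y ≤ 0 := by
  unfold b
  rw [τ0 (x := y - 1) (by linarith)]
  have := τ_nonneg (-y - 1)
  linarith

theorem b_abs (y : ℝ) : |b y| ≤ 1 := by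
  rw [abs_le]
  rcases le_total 0 y with h | h
  · have h1 := b_pos h
    unfold b at h1 ⊢
    rw [τ0 (x := -y - 1) (by linarith)] at h1 ⊢
    have := τ_le (y - 1)
    constructor <;> linarith
  · have h1 := b_neg h
    unfold b at h1 ⊢
    rw [τ0 (x := y - 1) (by linarith)] at h1 ⊢
    have := τ_le (-y - 1)
    constructor <;> linarith

theorem l_zero {y : ℝ} (h : 1 / 2 ≤ |y|) : l y = 0 := by
  unfold l
  have h1 : (1 / 2 : ℝ) ^ 2 ≤ |y| ^ 2 := pow_le_pow_left₀ (by norm_num) h 2
  rw [sq_abs] at h1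
  rw [τ0 (by linarith)]
  norm_num

theorem l_nonneg (y : ℝ) : 0 ≤ l y := div_nonneg (τ_nonneg _) (by norm_num)

theorem l_le (y : ℝ) : l y ≤ 1 / 4 := by
  unfold l
  have := τ_le (1 - 4 * y ^ 2)
  linarith

theorem l_at : l 0 = 1 / 4 := by
  unfold l
  rw [τ1 (by norm_num)]

theorem th_left {x : ℝ} (h : x ≤ -2) : th x = -Real.pi := by
  unfold th; rw [τ0 (by linarith), τ0 (by linarith)]; ring

theorem th_mid {x : ℝ} (h1 : -1 ≤ x) (h2 : x ≤ 1) : th x = -(Real.pi / 2) := by
  unfold th; rw [τ1 (by linarith), τ0 (by linarith)]; ring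

theorem th_right {x : ℝ} (h : 2 ≤ x) : th x = x - 6 := by
  unfold th; rw [τ1 (by linarith), τ1 (by linarith)]; ring

/-! ### orthogonal columns -/

theorem da_zero {x : ℝ} (h : x < -1 ∨ 1 < x) : deriv a x = 0 := by
  rcases h with h | h
  · have : a =ᶠ[𝓝 x] fun _ => -1 := by
      filter_upwards [Iio_mem_nhds h] with s hs using a_left (le_of_lt hs)
    rw [this.deriv_eq, deriv_const]
  · have : a =ᶠ[𝓝 x] fun _ => 1 := by
      filter_upwards [Ioi_mem_nhds h] with s hs using a_right (le_of_lt hs)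
    rw [this.deriv_eq, deriv_const]

theorem db_zero {y : ℝ} (h1 : -1 < y) (h2 : y < 1) : deriv b y = 0 := by
  have : b =ᶠ[𝓝 y] fun _ => 0 := by
    filter_upwards [Ioo_mem_nhds h1 h2] with s hs using b_mid hs.1.le hs.2.le
  rw [this.deriv_eq, deriv_const]

theorem ac (x : ℝ) : deriv a x * Real.cos (th x) = 0 := by
  by_cases h : -1 ≤ x ∧ x ≤ 1
  · rw [th_mid h.1 h.2, Real.cos_neg, Real.cos_pi_div_two, mul_zero]
  · rw [da_zero, zero_mul]
    by_contra hc
    push Not at hc
    exact h ⟨hc.1, hc.2⟩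

theorem lb (y : ℝ) : l y * deriv b y = 0 := by
  by_cases h : 1 / 2 ≤ |y|
  · rw [l_zero h, zero_mul]
  · push Not at h
    rw [abs_lt] at h
    rw [db_zero (by linarith) (by linarith), mul_zero]

theorem orth : OrthogonalColumns P Q := by
  rintro ⟨x, y⟩
  have ha : HasDerivAt a (deriv a x) x := (a_cd.differentiable (by simp)).differentiableAt.hasDerivAt
  have hb : HasDerivAt b (deriv b y) y := (b_cd.differentiable (by simp)).differentiableAt.hasDerivAt
  have hl : HasDerivAt l (deriv l y) y := (l_cd.differentiable (by simp)).differentiableAt.hasDerivAt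
  have ht : HasDerivAt th (deriv th x) x := (th_cd.differentiable (by simp)).differentiableAt.hasDerivAt
  have e1 : dx P (x, y) = -(l y * (Real.cos (th x) * deriv th x)) := by
    unfold dx P
    have h := ((ht.sin).const_mul (l y)).const_sub (-b y)
    exact h.deriv
  have e2 : dy P (x, y) = -deriv b y - deriv l y * Real.sin (th x) := by
    unfold dy P
    have h := (hb.neg).sub (hl.mul_const (Real.sin (th x)))
    exact h.deriv
  have e3 : dx Q (x, y) = deriv a x + l y * (-Real.sin (th x) * deriv th x) := by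
    unfold dx Q
    have h := ha.add ((ht.cos).const_mul (l y))
    exact h.deriv
  have e4 : dy Q (x, y) = deriv l y * Real.cos (th x) := by
    unfold dy Q
    have h := (hl.mul_const (Real.cos (th x))).const_add (a x)
    exact h.deriv
  rw [e1, e2, e3, e4]
  linear_combination (Real.cos (th x) * deriv th x) * lb y + deriv l y * ac x

/-! ### the function `W` -/

noncomputable def A (x : ℝ) : ℝ := ∫ s in (1 : ℝ)..x, a s

noncomputable def B (y : ℝ) : ℝ := ∫ s in (0 : ℝ)..y, b s

theorem A_deriv (x : ℝ) : HasDerivAt A (a x) x := (a_cd.continuous.integral_hasStrictDerivAt 1 x).hasDerivAt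

theorem B_deriv (y : ℝ) : HasDerivAt B (b y) y := (b_cd.continuous.integral_hasStrictDerivAt 0 y).hasDerivAt

theorem A_right {x : ℝ} (hx : 1 ≤ x) : A x = x - 1 := by
  unfold A
  rw [intervalIntegral.integral_congr (g := fun _ => (1 : ℝ))]
  · simp
  · intro s hs
    rw [uIcc_of_le hx] at hs
    exact a_right hs.1

theorem A_mid {x : ℝ} (h1 : -1 ≤ x) (h2 : x ≤ 1) : |A x| ≤ 2 := by
  have h := intervalIntegral.norm_integral_le_of_norm_le_const (a := (1 : ℝ)) (b := x) (C := 1) (f := a)
    (fun s _ => by rw [Real.norm_eq_abs]; exact a_abs s)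
  rw [Real.norm_eq_abs] at h
  have h3 : |x - 1| ≤ 2 := by rw [abs_le]; constructor <;> linarith
  have h4 : |A x| ≤ 1 * |x - 1| := h
  linarith

theorem A_left {x : ℝ} (hx : x ≤ -1) : A x = A (-1) - 1 - x := by
  have h := intervalIntegral.integral_add_adjacent_intervals (μ := MeasureTheory.volume) (f := a) (a := 1) (b := -1) (c := x)
    (a_cd.continuous.intervalIntegrable _ _) (a_cd.continuous.intervalIntegrable _ _)
  have h2 : ∫ s in (-1 : ℝ)..x, a s = ∫ s in (-1 : ℝ)..x, (-1 : ℝ) := by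
    apply intervalIntegral.integral_congr
    intro s hs
    rw [uIcc_of_ge hx] at hs
    exact a_left hs.2
  rw [h2] at h
  simp only [intervalIntegral.integral_const, smul_eq_mul] at h
  unfold A
  rw [← h]
  ring

theorem A_low (x : ℝ) : -2 ≤ A x ∧ |x| - 3 ≤ A x := by
  rcases le_total x (-1) with h1 | h1
  · have h2 := (abs_le.1 (A_mid (x := -1) le_rfl (by norm_num))).1
    rw [A_left h1, abs_of_nonpos (by linarith)]
    constructor <;> linarith
  · rcases le_total x 1 with h2 | h2
    · have h3 := (abs_le.1 (A_mid h1 h2)).1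
      have h4 : |x| ≤ 1 := abs_le.2 ⟨h1, h2⟩
      constructor <;> linarith
    · rw [A_right h2, abs_of_nonneg (by linarith)]
      constructor <;> linarith

theorem B_mid {y : ℝ} (h1 : -1 ≤ y) (h2 : y ≤ 1) : B y = 0 := by
  unfold B
  rw [intervalIntegral.integral_congr (g := fun _ => (0 : ℝ))]
  · simp
  · intro s hs
    rcases le_total 0 y with h | h
    · rw [uIcc_of_le h] at hs
      exact b_mid (by linarith [hs.1]) (by linarith [hs.2])
    · rw [uIcc_of_ge h] at hs
      exact b_mid (by linarith [hs.1]) (by linarith [hs.2])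

theorem B_nonneg (y : ℝ) : 0 ≤ B y := by
  unfold B
  rcases le_total 0 y with h | h
  · exact intervalIntegral.integral_nonneg h (fun s hs => b_pos hs.1)
  · rw [intervalIntegral.integral_symm, ← intervalIntegral.integral_neg]
    exact intervalIntegral.integral_nonneg h (fun s hs => by linarith [b_neg hs.2])

theorem B_le (y : ℝ) : B y ≤ |y| := by
  have h := intervalIntegral.norm_integral_le_of_norm_le_const (a := (0 : ℝ)) (b := y) (C := 1) (f := b)
    (fun s _ => by rw [Real.norm_eq_abs]; exact b_abs s)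
  rw [Real.norm_eq_abs, sub_zero, one_mul] at h
  exact (le_abs_self _).trans h

theorem B_low (y : ℝ) : |y| - 2 ≤ B y := by
  have hi : ∀ u v, IntervalIntegrable b MeasureTheory.volume u v := fun u v => b_cd.continuous.intervalIntegrable _ _
  rcases le_total |y| 2 with h | h
  · linarith [B_nonneg y]
  rcases le_total 0 y with h0 | h0
  · rw [abs_of_nonneg h0] at h ⊢
    have h1 := intervalIntegral.integral_add_adjacent_intervals (hi 0 2) (hi 2 y)
    have h2 : ∫ s in (2 : ℝ)..y, b s = ∫ s in (2 : ℝ)..y, (1 : ℝ) := by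
      apply intervalIntegral.integral_congr
      intro s hs
      rw [uIcc_of_le h] at hs
      exact b_up hs.1
    rw [h2] at h1
    simp only [intervalIntegral.integral_const, smul_eq_mul, mul_one] at h1
    have h3 := B_nonneg 2
    unfold B at h3 ⊢
    linarith
  · rw [abs_of_nonpos h0] at h ⊢
    have h1 := intervalIntegral.integral_add_adjacent_intervals (hi 0 (-2)) (hi (-2) y)
    have h2 : ∫ s in (-2 : ℝ)..y, b s = ∫ s in (-2 : ℝ)..y, (-1 : ℝ) := by
      apply intervalIntegral.integral_congr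
      intro s hs
      rw [uIcc_of_ge (by linarith)] at hs
      exact b_dn hs.2
    rw [h2] at h1
    simp only [intervalIntegral.integral_const, smul_eq_mul] at h1
    have h3 := B_nonneg (-2)
    unfold B at h3 ⊢
    linarith

noncomputable def W (p : ℝ × ℝ) : ℝ := A p.1 + B p.2 - 5

theorem W_cont : Continuous W := by
  unfold W
  have hA : Continuous A := continuous_iff_continuousAt.2 fun x => (A_deriv x).continuousAt
  have hB : Continuous B := continuous_iff_continuousAt.2 fun x => (B_deriv x).continuousAt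
  fun_prop

/-- the region is bounded -/
theorem W_bdd {p : ℝ × ℝ} (h : |W p| < 1) : ‖p‖ ≤ 10 := by
  unfold W at h
  rw [abs_lt] at h
  have h1 := A_low p.1
  have h2 := B_nonneg p.2
  have h3 := B_low p.2
  rw [Prod.norm_def]
  apply max_le
  · rw [Real.norm_eq_abs]; linarith
  · rw [Real.norm_eq_abs]; linarith

/-- the field turns around the origin -/
theorem turn {p : ℝ × ℝ} (h : |W p| < 1) : 1 / 2 ≤ p.1 * Q p - p.2 * P p := by
  obtain ⟨x, y⟩ := p
  unfold W at h
  rw [abs_lt] at h
  simp only at h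
  have hyb : 0 ≤ y * b y := by
    rcases le_total 0 y with h0 | h0
    · exact mul_nonneg h0 (b_pos h0)
    · exact mul_nonneg_of_nonpos_of_nonpos h0 (b_neg h0)
  have e1 : x * Q (x, y) - y * P (x, y) = x * a x + y * b y + l y * (x * Real.cos (th x) + y * Real.sin (th x)) := by
    unfold P Q; ring
  simp only
  rw [e1]
  -- the part in the strip
  have hl : -(1 / 4 * (|x| + 1 / 2)) ≤ l y * (x * Real.cos (th x) + y * Real.sin (th x)) := by
    by_cases hy : 1 / 2 ≤ |y|
    · rw [l_zero hy, zero_mul]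
      have := abs_nonneg x
      linarith
    · push Not at hy
      have h3 : |x * Real.cos (th x) + y * Real.sin (th x)| ≤ |x| + 1 / 2 := by
        refine (abs_add_le _ _).trans ?_
        rw [abs_mul, abs_mul]
        have h4 := Real.abs_cos_le_one (th x)
        have h5 := Real.abs_sin_le_one (th x)
        have h6 : |x| * |Real.cos (th x)| ≤ |x| * 1 := mul_le_mul_of_nonneg_left h4 (abs_nonneg _)
        have h7 : |y| * |Real.sin (th x)| ≤ |y| * 1 := mul_le_mul_of_nonneg_left h5 (abs_nonneg _)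
        linarith
      have h4 : |l y * (x * Real.cos (th x) + y * Real.sin (th x))| ≤ 1 / 4 * (|x| + 1 / 2) := by
        rw [abs_mul, abs_of_nonneg (l_nonneg y)]
        exact mul_le_mul (l_le y) h3 (abs_nonneg _) (by norm_num)
      exact (abs_le.1 h4).1
  rcases le_total |x| 1 with hx | hx
  · -- the middle
    have hx' := abs_le.1 hx
    have h3 := (abs_le.1 (A_mid hx'.1 hx'.2)).2
    have h4 : 2 < |y| := lt_of_lt_of_le (by linarith) (B_le y)
    have hly : l y = 0 := l_zero (by linarith)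
    have hyb2 : 2 ≤ y * b y := by
      rcases le_total 0 y with h0 | h0
      · rw [abs_of_nonneg h0] at h4
        rw [b_up h4.le]; linarith
      · rw [abs_of_nonpos h0] at h4
        rw [b_dn (by linarith)]; linarith
    have hxa : -1 ≤ x * a x := by
      have h5 : |x * a x| ≤ 1 := by
        rw [abs_mul]
        exact mul_le_one₀ hx (abs_nonneg _) (a_abs x)
      exact (abs_le.1 h5).1
    rw [hly, zero_mul]
    linarith
  · have hxa : x * a x = |x| := by
      rcases le_total 0 x with h0 | h0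
      · rw [abs_of_nonneg h0] at hx ⊢
        rw [a_right hx, mul_one]
      · rw [abs_of_nonpos h0] at hx ⊢
        rw [a_left (by linarith)]; ring
    rw [hxa]
    linarith

/-- the derivative of `W` along the field -/
noncomputable def dW (p : ℝ × ℝ) : ℝ := a p.1 * P p + b p.2 * Q p

theorem W_deriv {γ : ℝ → ℝ × ℝ} {t c : ℝ} (h : HasDerivAt γ (c • (P (γ t), Q (γ t))) t) :
    HasDerivAt (fun s => W (γ s)) (c * dW (γ t)) t := by
  have h1 : HasDerivAt (fun s => (γ s).1) (c * P (γ t)) t := h.fst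
  have h2 : HasDerivAt (fun s => (γ s).2) (c * Q (γ t)) t := h.snd
  have h3 := ((A_deriv (γ t).1).comp t h1).add ((B_deriv (γ t).2).comp t h2)
  have h4 := h3.sub_const 5
  exact h4.congr_deriv (by unfold dW; ring)

theorem bl (y : ℝ) : b y * l y = 0 := by
  by_cases h : 1 / 2 ≤ |y|
  · rw [l_zero h, mul_zero]
  · push Not at h
    rw [abs_lt] at h
    rw [b_mid (by linarith) (by linarith), zero_mul]

theorem dW_eq (x y : ℝ) : dW (x, y) = -(a x * (l y * Real.sin (th x))) := by
  unfold dW P Q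
  linear_combination Real.cos (th x) * bl y

/-- `W` decreases in absolute value -/
theorem dW_le {p : ℝ × ℝ} (h : |W p| < 1) : W p * dW p ≤ 0 := by
  obtain ⟨x, y⟩ := p
  rw [dW_eq]
  by_cases hy : 1 / 2 ≤ |y|
  · rw [l_zero hy]; simp
  push Not at hy
  have hy' := abs_lt.1 hy
  unfold W at h ⊢
  simp only at h ⊢
  rw [B_mid (by linarith) (by linarith)] at h ⊢
  rw [abs_lt] at h
  rcases le_total x (-1) with h1 | h1
  · have h2 := (abs_le.1 (A_mid (x := -1) le_rfl (by norm_num))).2
    rw [A_left h1] at h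
    rw [th_left (by linarith), Real.sin_neg, Real.sin_pi]
    simp
  rcases le_total x 1 with h2 | h2
  · have h3 := (abs_le.1 (A_mid h1 h2)).2
    linarith
  · rw [A_right h2] at h ⊢
    rw [a_right h2, th_right (by linarith)]
    have h3 : 0 ≤ (x - 6) * Real.sin (x - 6) := by
      rcases le_total 0 (x - 6) with h4 | h4
      · exact mul_nonneg h4 (Real.sin_nonneg_of_nonneg_of_le_pi h4 (by linarith [Real.pi_gt_three]))
      · exact mul_nonneg_of_nonpos_of_nonpos h4 (Real.sin_nonpos_of_nonpos_of_neg_pi_le h4 (by linarith [Real.pi_gt_three]))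
    have h5 := mul_nonneg (l_nonneg y) h3
    nlinarith

/-- on the positive half of the `x`-axis -/
theorem axis {r : ℝ} (hr : 0 < r) (h : |W (r, 0)| < 1) : W (r, 0) = r - 6 ∧ dW (r, 0) = -(1 / 4 * Real.sin (r - 6)) := by
  rw [dW_eq]
  unfold W at h ⊢
  simp only at h ⊢
  rw [B_mid (by norm_num) (by norm_num)] at h ⊢
  rw [abs_lt] at h
  rcases le_total r 1 with h2 | h2
  · have h3 := (abs_le.1 (A_mid (x := r) (by linarith) h2)).2
    linarith
  · rw [A_right h2] at h ⊢
    rw [a_right h2, th_right (by linarith), l_at]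
    exact ⟨by ring, by ring⟩

/-! ### turning curves meet the positive half of the real axis -/

theorem hit {z v : ℝ → ℂ} (hz : ∀ t, HasDerivAt z (v t) t) (hv : Continuous v) {c : ℝ} (hc : 0 < c)
    (h0 : ∀ t, 0 ≤ t → z t ≠ 0) (him : ∀ t, 0 ≤ t → c ≤ (v t / z t).im) :
    ∃ t : ℝ, 0 < t ∧ ∃ r : ℝ, 0 < r ∧ z t = r := by
  have hzc : Continuous z := continuous_iff_continuousAt.2 fun t => (hz t).continuousAt
  set g : ℝ → ℂ := fun t => v (max t 0) / z (max t 0) with hg
  have hgc : Continuous g := by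
    apply Continuous.div (hv.comp (continuous_id.max continuous_const)) (hzc.comp (continuous_id.max continuous_const))
    intro t
    exact h0 _ (le_max_right _ _)
  set Φ : ℝ → ℂ := fun t => ∫ s in (0 : ℝ)..t, g s with hΦ
  have hΦd : ∀ t, HasDerivAt Φ (g t) t := fun t => (hgc.integral_hasStrictDerivAt 0 t).hasDerivAt
  have hΦ0 : Φ 0 = 0 := by simp [hΦ]
  have hgim : ∀ t, c ≤ (g t).im := fun t => him _ (le_max_right _ _)
  have hΦim : ∀ t, HasDerivAt (fun s => (Φ s).im) (g t).im t := fun t =>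
    Complex.imCLM.hasFDerivAt.comp_hasDerivAt t (hΦd t)
  have hmono : Monotone fun t => (Φ t).im - c * t := by
    apply monotone_of_deriv_nonneg
    · exact fun t => ((hΦim t).sub ((hasDerivAt_id t).const_mul c)).differentiableAt
    · intro t
      have h1 := ((hΦim t).sub ((hasDerivAt_id t).const_mul c)).deriv
      have h2 : deriv (fun t => (Φ t).im - c * t) t = (g t).im - c * 1 := h1
      rw [h2]
      linarith [hgim t]
  -- the target value of the angle
  set w0 : ℝ := 2 * Real.pi - (z 0).arg with hw0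
  have hw00 : 0 < w0 := by linarith [Complex.arg_le_pi (z 0), Real.pi_pos]
  obtain ⟨t, ht, htw⟩ : ∃ t, 0 < t ∧ (Φ t).im = w0 := by
    have hcont : ContinuousOn (fun s => (Φ s).im) (Icc 0 (w0 / c)) := fun s _ => (hΦim s).continuousAt.continuousWithinAt
    have h1 := intermediate_value_Icc (div_nonneg hw00.le hc.le) hcont
    have h2 : w0 ∈ Icc ((Φ 0).im) ((Φ (w0 / c)).im) := by
      constructor
      · rw [hΦ0]; exact hw00.le
      · have h3 := hmono (div_nonneg hw00.le hc.le)
        simp only [hΦ0, Complex.zero_im, mul_zero, sub_zero] at h3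
        have h4 : c * (w0 / c) = w0 := by field_simp
        rw [h4] at h3
        linarith
    obtain ⟨t, ht, htw⟩ := h1 h2
    refine ⟨t, ?_, htw⟩
    rcases ht.1.lt_or_eq with h | h
    · exact h
    · rw [← h] at htw
      simp only [hΦ0, Complex.zero_im] at htw
      linarith
  refine ⟨t, ht, ?_⟩
  -- the formula for `z`
  have hform : z t * Complex.exp (-Φ t) = z 0 := by
    have hd : ∀ s, 0 ≤ s → HasDerivAt (fun s => z s * Complex.exp (-Φ s)) 0 s := by
      intro s hs
      have h1 := (hz s).mul ((hΦd s).neg.cexp)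
      refine h1.congr_deriv ?_
      have h2 : g s = v s / z s := by simp only [hg, max_eq_left hs]
      rw [h2]
      have h3 := h0 s hs
      field_simp
      ring
    have h1 := constant_of_has_deriv_right_zero (f := fun s => z s * Complex.exp (-Φ s)) (a := 0) (b := t)
      (fun s hs => (hd s hs.1).continuousAt.continuousWithinAt) (fun s hs => (hd s hs.1).hasDerivWithinAt) t ⟨ht.le, le_rfl⟩
    simpa [hΦ0] using h1
  have hz0 : z 0 = (‖z 0‖ : ℂ) * Complex.exp ((z 0).arg * Complex.I) := (Complex.norm_mul_exp_arg_mul_I (z 0)).symm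
  have hzt : z t = z 0 * Complex.exp (Φ t) := by
    rw [← hform, mul_assoc, ← Complex.exp_add]
    simp
  refine ⟨‖z 0‖ * Real.exp (Φ t).re, ?_, ?_⟩
  · have := norm_pos_iff.2 (h0 0 le_rfl)
    positivity
  · rw [hzt]
    have h1 : Φ t = ((Φ t).re : ℂ) + (w0 : ℂ) * Complex.I := by
      rw [← htw]; exact (Complex.re_add_im (Φ t)).symm
    conv_lhs => rw [hz0, h1]
    rw [mul_assoc, ← Complex.exp_add]
    have h2 : ((z 0).arg : ℂ) * Complex.I + (((Φ t).re : ℂ) + (w0 : ℂ) * Complex.I) =
        ((Φ t).re : ℂ) + 2 * Real.pi * Complex.I := by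
      rw [hw0]; push_cast; ring
    rw [h2, Complex.exp_add, Complex.exp_two_pi_mul_I, mul_one]
    push_cast
    ring

/-- the same for solutions in the region -/
theorem hit_sol {γ : ℝ → ℝ × ℝ} {G : ℝ × ℝ → ℝ × ℝ} (hG : Continuous G) (hγ : ∀ t, HasDerivAt γ (G (γ t)) t)
    (hin : ∀ t, 0 ≤ t → |W (γ t)| < 1) (hGe : ∀ p, |W p| < 1 → G p = (P p, Q p)) :
    ∃ t : ℝ, 0 < t ∧ ∃ r : ℝ, 0 < r ∧ γ t = (r, 0) := by
  have hγc : Continuous γ := continuous_iff_continuousAt.2 fun t => (hγ t).continuousAt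
  set z : ℝ → ℂ := fun t => ((γ t).1 : ℂ) + ((γ t).2 : ℂ) * Complex.I with hz
  set v : ℝ → ℂ := fun t => ((G (γ t)).1 : ℂ) + ((G (γ t)).2 : ℂ) * Complex.I with hv
  have hzd : ∀ t, HasDerivAt z (v t) t := by
    intro t
    have h1 : HasDerivAt (fun s => (γ s).1) (G (γ t)).1 t := (hγ t).fst
    have h2 : HasDerivAt (fun s => (γ s).2) (G (γ t)).2 t := (hγ t).snd
    exact h1.ofReal_comp.add (h2.ofReal_comp.mul_const Complex.I)
  have hvc : Continuous v := by
    have h1 : Continuous fun t => G (γ t) := hG.comp hγc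
    exact (Complex.continuous_ofReal.comp h1.fst).add ((Complex.continuous_ofReal.comp h1.snd).mul continuous_const)
  have hre : ∀ t, (z t).re = (γ t).1 := fun t => by simp [hz]
  have him : ∀ t, (z t).im = (γ t).2 := fun t => by simp [hz]
  have hsq : ∀ t, Complex.normSq (z t) = (γ t).1 ^ 2 + (γ t).2 ^ 2 := fun t => by
    rw [Complex.normSq_apply, hre, him]; ring
  have hnum : ∀ t, 0 ≤ t → 1 / 2 ≤ (γ t).1 * (G (γ t)).2 - (γ t).2 * (G (γ t)).1 := by
    intro t ht
    rw [hGe _ (hin t ht)]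
    exact turn (hin t ht)
  have hne : ∀ t, 0 ≤ t → z t ≠ 0 := by
    intro t ht h
    have h1 := hnum t ht
    have h2 := hre t
    have h3 := him t
    rw [h] at h2 h3
    simp only [Complex.zero_re, Complex.zero_im] at h2 h3
    rw [← h2, ← h3] at h1
    linarith
  obtain ⟨t, ht, r, hr, hzt⟩ := hit hzd hvc (c := 1 / 400) (by norm_num) hne (fun t ht => by
    have h1 := hnum t ht
    have h2 := W_bdd (hin t ht)
    rw [Prod.norm_def] at h2
    have h3 := abs_le.1 ((le_max_left _ _).trans h2 : |(γ t).1| ≤ 10)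
    have h4 := abs_le.1 ((le_max_right _ _).trans h2 : |(γ t).2| ≤ 10)
    have h5 : 0 < Complex.normSq (z t) := Complex.normSq_pos.2 (hne t ht)
    have h6 : Complex.normSq (z t) ≤ 200 := by
      rw [hsq]
      nlinarith
    have h7 : (v t / z t).im = ((γ t).1 * (G (γ t)).2 - (γ t).2 * (G (γ t)).1) / Complex.normSq (z t) := by
      rw [Complex.div_im, hre, him]
      have e1 : (v t).re = (G (γ t)).1 := by simp [hv]
      have e2 : (v t).im = (G (γ t)).2 := by simp [hv]
      rw [e1, e2]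
      ring
    rw [h7, le_div_iff₀ h5]
    linarith)
  refine ⟨t, ht, r, hr, ?_⟩
  have h1 := hre t
  have h2 := him t
  rw [hzt] at h1 h2
  simp only [Complex.ofReal_re, Complex.ofReal_im] at h1 h2
  exact Prod.ext h1.symm h2.symm

/-! ### solutions for all times -/

/-- Bounded Lipschitz vector fields are complete. -/
theorem exists_global (G : ℝ × ℝ → ℝ × ℝ) (K L : ℝ≥0) (hK : LipschitzWith K G)
    (hL : ∀ x, ‖G x‖ ≤ L) (x₀ : ℝ × ℝ) :
    ∃ α : ℝ → ℝ × ℝ, α 0 = x₀ ∧ ∀ t, HasDerivAt α (G (α t)) t := by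
  have key : ∀ n : ℕ, ∃ α : ℝ → ℝ × ℝ, α 0 = x₀ ∧ ∀ t ∈ Ioo (-(n + 1 : ℝ)) (n + 1),
      HasDerivAt α (G (α t)) t := by
    intro n
    have h0 : (0 : ℝ) ∈ Icc (-(n + 1 : ℝ)) (n + 1) := ⟨by linarith [n.cast_nonneg (α := ℝ)],
      by positivity⟩
    have hpl : IsPicardLindelof (fun _ => G) (⟨0, h0⟩ : Icc (-(n + 1 : ℝ)) (n + 1)) x₀
        (L * (n + 1 : ℝ≥0)) 0 L K := by
      apply IsPicardLindelof.of_time_independent (fun x _ => hL x) (hK.lipschitzOnWith)
      simp
    obtain ⟨α, h1, h2⟩ := hpl.exists_eq_forall_mem_Icc_hasDerivWithinAt₀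
    refine ⟨α, h1, fun t ht => ?_⟩
    exact (h2 t (Ioo_subset_Icc_self ht)).hasDerivAt (Icc_mem_nhds ht.1 ht.2)
  choose α hα0 hα using key
  have huniq : ∀ n m : ℕ, n ≤ m → EqOn (α n) (α m) (Ioo (-(n + 1 : ℝ)) (n + 1)) := by
    intro n m hnm
    have hc : (n : ℝ) ≤ m := by exact_mod_cast hnm
    have h0 : (0 : ℝ) ∈ Ioo (-(n + 1 : ℝ)) (n + 1) := ⟨by linarith [n.cast_nonneg (α := ℝ)],
      by positivity⟩
    refine ODE_solution_unique_of_mem_Ioo (v := fun _ => G) (s := fun _ => univ) (K := K)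
      (fun t _ => hK.lipschitzOnWith) h0 (fun t ht => ⟨hα n t ht, mem_univ _⟩)
      (fun t ht => ⟨hα m t ⟨by linarith [ht.1], by linarith [ht.2]⟩, mem_univ _⟩) ?_
    rw [hα0, hα0]
  refine ⟨fun t => α ⌈|t|⌉₊ t, ?_, fun t => ?_⟩
  · simp only
    exact hα0 _
  · have hev : (fun s => α ⌈|s|⌉₊ s) =ᶠ[𝓝 t] α (⌈|t|⌉₊ + 1) := by
      have h1 : ∀ᶠ s in 𝓝 t, |s| < |t| + 1 := by
        have : Continuous fun s : ℝ => |s| := continuous_abs
        exact this.continuousAt.eventually_lt continuousAt_const (by simp)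
      filter_upwards [h1] with s hs
      have h2 : ⌈|s|⌉₊ ≤ ⌈|t|⌉₊ + 1 := by
        apply Nat.ceil_le.2
        have := Nat.le_ceil (|t|)
        push_cast
        linarith
      apply huniq _ _ h2
      have h3 := Nat.le_ceil (|s|)
      have h4 := abs_le.1 (le_refl |s|)
      constructor <;> linarith
    have h5 : HasDerivAt (α (⌈|t|⌉₊ + 1)) (G (α (⌈|t|⌉₊ + 1) t)) t := by
      apply hα
      have h3 := Nat.le_ceil (|t|)
      have h4 := abs_le.1 (le_refl |t|)
      push_cast
      constructor <;> linarith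
    have h6 := h5.congr_of_eventuallyEq hev
    have h7 : α (⌈|t|⌉₊ + 1) t = α ⌈|t|⌉₊ t := hev.self_of_nhds.symm
    rw [h7] at h6
    exact h6

noncomputable def bump : ContDiffBump (0 : ℝ × ℝ) := ⟨20, 21, by norm_num, by norm_num⟩

/-- the truncated field -/
noncomputable def G (p : ℝ × ℝ) : ℝ × ℝ := bump p • (P p, Q p)

theorem G_cd : ContDiff ℝ ∞ G := by
  unfold G
  exact bump.contDiff.smul (P_cd.prodMk Q_cd)

theorem G_supp : HasCompactSupport G := by
  unfold G
  exact bump.hasCompactSupport.smul_right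

theorem G_eq {p : ℝ × ℝ} (h : |W p| < 1) : G p = (P p, Q p) := by
  unfold G
  have h1 := W_bdd h
  rw [bump.one_of_mem_closedBall, one_smul]
  rw [mem_closedBall_zero_iff]
  show ‖p‖ ≤ 20
  linarith

theorem G_lip : ∃ K L : ℝ≥0, LipschitzWith K G ∧ ∀ p, ‖G p‖ ≤ L := by
  obtain ⟨K, hK⟩ := G_cd.lipschitzWith_of_hasCompactSupport G_supp (by simp)
  obtain ⟨M, hM⟩ := G_supp.exists_bound_of_continuous G_cd.continuous
  exact ⟨K, Real.toNNReal M, hK, fun x => (hM x).trans (Real.le_coe_toNNReal M)⟩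

theorem W_start : W (6, 0) = 0 := by
  unfold W
  simp only
  rw [B_mid (by norm_num) (by norm_num), A_right (by norm_num)]
  norm_num

/-- the solution through `(6, 0)` stays on `W = 0` -/
theorem stay {γ : ℝ → ℝ × ℝ} (hγ : ∀ t, HasDerivAt γ (G (γ t)) t) (h0 : γ 0 = (6, 0)) (t : ℝ) (ht : 0 ≤ t) :
    W (γ t) = 0 := by
  have hd : ∀ s, HasDerivAt (fun s => W (γ s)) (bump (γ s) * dW (γ s)) s := fun s => W_deriv (hγ s)
  have hv : ∀ s, HasDerivAt (fun s => W (γ s) ^ 2) (2 * W (γ s) * (bump (γ s) * dW (γ s))) s := by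
    intro s
    have h1 := (hd s).pow 2
    refine h1.congr_deriv ?_
    norm_num
  have key : ∀ ε : ℝ, 0 < ε → ε * (1 + t) < 1 → W (γ t) ^ 2 ≤ ε * (1 + t) := by
    intro ε hε hε1
    have h1 := image_le_of_deriv_right_lt_deriv_boundary (f := fun s => W (γ s) ^ 2)
      (f' := fun s => 2 * W (γ s) * (bump (γ s) * dW (γ s))) (a := 0) (b := t)
      (fun s _ => (hv s).continuousAt.continuousWithinAt) (fun s _ => (hv s).hasDerivWithinAt)
      (B := fun s => ε * (1 + s)) (B' := fun _ => ε) (by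
        simp only [h0, W_start]
        norm_num
        exact hε.le) (fun s => by
        have h2 := ((hasDerivAt_id s).const_add 1).const_mul ε
        simpa using h2) (fun s hs hs2 => by
        have h3 : W (γ s) ^ 2 < 1 := by
          rw [hs2]
          have : ε * s ≤ ε * t := mul_le_mul_of_nonneg_left hs.2.le hε.le
          nlinarith
        have h4 : |W (γ s)| < 1 := by
          rw [← sq_lt_one_iff_abs_lt_one]
          exact h3
        have h5 := dW_le h4
        have h6 : 0 ≤ bump (γ s) := bump.nonneg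
        have h7 : 2 * W (γ s) * (bump (γ s) * dW (γ s)) = 2 * (bump (γ s) * (W (γ s) * dW (γ s))) := by ring
        rw [h7]
        have h8 := mul_nonpos_of_nonneg_of_nonpos h6 h5
        linarith)
    exact h1 ⟨ht, le_rfl⟩
  have h1 : W (γ t) ^ 2 ≤ 0 := by
    by_contra hne
    push Not at hne
    set ε : ℝ := min (W (γ t) ^ 2 / 2) (1 / 2) / (1 + t) with hε
    have h2 : 0 < min (W (γ t) ^ 2 / 2) (1 / 2) := lt_min (by linarith) (by norm_num)
    have h3 : ε * (1 + t) = min (W (γ t) ^ 2 / 2) (1 / 2) := by rw [hε]; field_simp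
    have h4 := key ε (by positivity) (by rw [h3]; exact lt_of_le_of_lt (min_le_right _ _) (by norm_num))
    rw [h3] at h4
    have h5 := min_le_left (W (γ t) ^ 2 / 2) (1 / 2)
    linarith
  have h2 : W (γ t) ^ 2 = 0 := le_antisymm h1 (sq_nonneg _)
  exact pow_eq_zero_iff (two_ne_zero) |>.1 h2

theorem uniq {γ δ : ℝ → ℝ × ℝ} (hγ : ∀ t, HasDerivAt γ (G (γ t)) t) (hδ : ∀ t, HasDerivAt δ (G (δ t)) t) (t₀ : ℝ)
    (h : γ t₀ = δ t₀) : γ = δ := by
  obtain ⟨K, L, hK, -⟩ := G_lip
  exact ODE_solution_unique_univ (v := fun _ => G) (s := fun _ => univ) (K := K) (fun t => hK.lipschitzOnWith)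
    (fun t => ⟨hγ t, mem_univ _⟩) (fun t => ⟨hδ t, mem_univ _⟩) h

theorem shifted {γ : ℝ → ℝ × ℝ} (hγ : ∀ t, HasDerivAt γ (G (γ t)) t) (T : ℝ) :
    ∀ t, HasDerivAt (fun s => γ (s + T)) (G (γ (t + T))) t := fun t => HasDerivAt.comp_add_const t T (hγ (t + T))

/-- the periodic solution -/
theorem exists_periodic : ∃ (γ : ℝ → ℝ × ℝ) (T : ℝ), 0 < T ∧ (∀ t, HasDerivAt γ (G (γ t)) t) ∧ γ 0 = (6, 0) ∧
    (∀ t, γ (t + T) = γ t) ∧ ∀ t, W (γ t) = 0 := by
  obtain ⟨K, L, hK, hL⟩ := G_lip
  obtain ⟨γ, h0, hγ⟩ := exists_global G K L hK hL (6, 0)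
  have hin : ∀ t, 0 ≤ t → |W (γ t)| < 1 := fun t ht => by rw [stay hγ h0 t ht]; norm_num
  obtain ⟨T, hT, r, hr, hTr⟩ := hit_sol G_cd.continuous hγ hin (fun p hp => G_eq hp)
  have hr6 : r = 6 := by
    have h1 := hin T hT.le
    rw [hTr] at h1
    have h2 := (axis hr h1).1
    have h3 := stay hγ h0 T hT.le
    rw [hTr, h2] at h3
    linarith
  rw [hr6] at hTr
  have hper : ∀ t, γ (t + T) = γ t := by
    have h1 := uniq (shifted hγ T) hγ 0 (by simp only [zero_add]; rw [hTr, h0])
    intro t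
    exact congrFun h1 t
  refine ⟨γ, T, hT, hγ, h0, hper, fun t => ?_⟩
  have hP : Function.Periodic γ T := hper
  obtain ⟨n, hn⟩ := exists_nat_ge (-t / T)
  have h1 : 0 ≤ t + n * T := by
    rw [div_le_iff₀ hT] at hn
    linarith
  have h2 := stay hγ h0 _ h1
  have h3 : γ (t + n * T) = γ t := by
    have := hP.nat_mul n
    exact this t
  rwa [h3] at h2

/-- **A smooth vector field of the plane with orthogonal Jacobian columns and a limit cycle.** (The answer to Q1 is
negative.) -/
theorem result : ∃ P Q : ℝ × ℝ → ℝ, ContDiff ℝ ∞ P ∧ ContDiff ℝ ∞ Q ∧ OrthogonalColumns P Q ∧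
    ∃ C : Set (ℝ × ℝ), LimitCycle P Q C := by
  obtain ⟨γ, T, hT, hγ, h0, hper, hW⟩ := exists_periodic
  have hin : ∀ t, |W (γ t)| < 1 := fun t => by rw [hW]; norm_num
  refine ⟨P, Q, P_cd, Q_cd, orth, range γ, ⟨γ, T, hT, fun t => ?_, hper, rfl⟩, ?_, {p | |W p| < 1}, ?_, ?_, ?_⟩
  · have h1 := hγ t
    rw [G_eq (hin t)] at h1
    exact h1
  · -- not constant
    by_contra hc
    rw [Set.not_nontrivial_iff] at hc
    have hconst : γ = fun _ => γ 0 := funext fun t => hc (mem_range_self t) (mem_range_self 0)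
    have h1 := hγ 0
    rw [G_eq (hin 0), h0] at h1
    have h2 : HasDerivAt γ 0 0 := by
      rw [hconst]
      exact hasDerivAt_const _ _
    have h3 := h1.unique h2
    have h4 : Q (6, 0) = 0 := congrArg Prod.snd h3
    unfold Q at h4
    simp only at h4
    rw [a_right (by norm_num), l_at, th_right (by norm_num), sub_self, Real.cos_zero] at h4
    norm_num at h4
  · have : Continuous fun p => |W p| := W_cont.abs
    exact isOpen_lt this continuous_const
  · rintro _ ⟨t, rfl⟩
    exact hin t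
  · rintro C' ⟨δ, T', hT', hδ, hper', rfl⟩ hsub
    have hδin : ∀ t, |W (δ t)| < 1 := fun t => hsub (mem_range_self t)
    have hδG : ∀ t, HasDerivAt δ (G (δ t)) t := fun t => by rw [G_eq (hδin t)]; exact hδ t
    have hd : ∀ s, HasDerivAt (fun s => W (δ s)) (1 * dW (δ s)) s := fun s =>
      W_deriv (by rw [one_smul]; exact hδ s)
    have hv : ∀ s, HasDerivAt (fun s => W (δ s) ^ 2) (2 * (W (δ s) * dW (δ s))) s := by
      intro s
      have h1 := (hd s).pow 2
      refine h1.congr_deriv ?_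
      norm_num
      ring
    have hanti : Antitone fun s => W (δ s) ^ 2 := by
      apply antitone_of_deriv_nonpos (fun s => (hv s).differentiableAt)
      intro s
      rw [(hv s).deriv]
      have := dW_le (hδin s)
      linarith
    have hP : Function.Periodic δ T' := hper'
    have hconst : ∀ s t : ℝ, W (δ s) ^ 2 = W (δ t) ^ 2 := by
      have hle : ∀ s t : ℝ, W (δ s) ^ 2 ≤ W (δ t) ^ 2 := by
        intro s t
        obtain ⟨n, hn⟩ := exists_nat_ge ((t - s) / T')
        have h1 : t ≤ s + n * T' := by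
          rw [div_le_iff₀ hT'] at hn
          linarith
        have h2 := hanti h1
        simp only at h2
        have h3 : δ (s + n * T') = δ s := (hP.nat_mul n) s
        rwa [h3] at h2
      exact fun s t => le_antisymm (hle s t) (hle t s)
    obtain ⟨t₁, ht₁, r, hr, htr⟩ := hit_sol G_cd.continuous hδG (fun t _ => hδin t) (fun p hp => G_eq hp)
    have h1 := hδin t₁
    rw [htr] at h1
    obtain ⟨h2, h3⟩ := axis hr h1
    have h4 : W (δ t₁) * dW (δ t₁) = 0 := by
      have h5 := (hv t₁)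
      have h6 : (fun s => W (δ s) ^ 2) = fun _ => W (δ t₁) ^ 2 := funext fun s => hconst s t₁
      rw [h6] at h5
      have h7 := h5.unique (hasDerivAt_const t₁ (W (δ t₁) ^ 2))
      linarith
    rw [htr, h2, h3] at h4
    rw [h2, abs_lt] at h1
    have hr6 : r = 6 := by
      by_contra hne
      have h5 : (r - 6) * Real.sin (r - 6) = 0 := by linarith
      rcases mul_eq_zero.1 h5 with h6 | h6
      · exact hne (by linarith)
      · rcases lt_or_gt_of_ne hne with h7 | h7
        · have := Real.sin_neg_of_neg_of_neg_pi_lt (x := r - 6) (by linarith) (by linarith [Real.pi_gt_three])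
          linarith
        · have := Real.sin_pos_of_pos_of_lt_pi (x := r - 6) (by linarith) (by linarith [Real.pi_gt_three])
          linarith
    rw [hr6] at htr
    have h5 := uniq (shifted hδG t₁) hγ 0 (by simp only [zero_add]; rw [htr, h0])
    ext p
    constructor
    · rintro ⟨t, rfl⟩
      refine ⟨t - t₁, ?_⟩
      have h6 := congrFun h5 (t - t₁)
      simp only [sub_add_cancel] at h6
      exact h6.symm
    · rintro ⟨t, rfl⟩
      exact ⟨t + t₁, congrFun h5 t⟩

end Pool.Agent.Results.MP_3ec6ac_an.SmoothLimitCycle
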